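import Pool.Agent.H534R3.Local
import Pool.Agent.H534R3.PiThree

/-!
# Differences of generalized normal-number sets

For all multiplicatively independent integers `a, b > 1` and every `k`, the set of the real
polynomials `g` of degree at most `k` for which `g(n) a ^ n` is uniformly distributed modulo one
and `g(n) b ^ n` is not is complete for the class of the differences of two sets of the third
multiplicative class. The same holds for the set of the polynomials of exact degree `k` in it.

The polynomial `ξ + n ^ k` has, modulo one, the same values `g(n) a ^ n` as the constant `ξ`, so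
the hardness comes from the reals, where a continuous map of the Baire space reduces the convergence
to infinity along the odd and the even indices independently to the normality in the bases `a`
and `b`.
-/

set_option autoImplicit false

open Filter Topology

namespace Pool.Agent.Results.MP_df8ac3_lc.AllDegrees

/-- The sequence `x` is uniformly distributed modulo one. -/
def IsUD (x : ℕ → ℝ) : Prop := ∀ u v : ℝ, 0 ≤ u → u < v → v ≤ 1 →
  Tendsto
    (fun N : ℕ =>
      (((Finset.range N).filter (fun n => u ≤ Int.fract (x n) ∧ Int.fract (x n) < v)).card : ℝ)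
        / (N : ℝ))
    atTop (nhds (v - u))

/-- The space of the real polynomials of degree at most `k`, given by the vectors of their
coefficients, with the Euclidean topology. -/
abbrev PolySpace (k : ℕ) : Type := Fin (k + 1) → ℝ

/-- The value of the polynomial with the coefficients `g` at the number `n`. -/
noncomputable def val {k : ℕ} (g : PolySpace k) (n : ℕ) : ℝ :=
  ∑ i : Fin (k + 1), g i * (n : ℝ) ^ (i : ℕ)

/-- The set of the polynomials `g` of degree at most `k` such that `g(n) a ^ n` is uniformly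
distributed modulo one. -/
def NormalVec (a k : ℕ) : Set (PolySpace k) := {g | IsUD (fun n => val g n * (a : ℝ) ^ n)}

/-- `A` is a countable intersection of countable unions of closed sets. -/
def IsPiThree {X : Type} [TopologicalSpace X] (A : Set X) : Prop :=
  ∃ F : ℕ → ℕ → Set X, (∀ i j, IsClosed (F i j)) ∧ A = ⋂ i, ⋃ j, F i j

/-- `D` is the difference of two sets of the third multiplicative class. -/
def IsDTwo {X : Type} [TopologicalSpace X] (D : Set X) : Prop :=
  ∃ A B : Set X, IsPiThree A ∧ IsPiThree B ∧ D = A \ B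

/-- `D` is complete for the class of the differences of two sets of the third multiplicative class:
it belongs to the class and its complement does not. -/
def IsDTwoComplete {X : Type} [TopologicalSpace X] (D : Set X) : Prop :=
  IsDTwo D ∧ ¬ IsDTwo Dᶜ

theorem isUD_iff (x : ℕ → ℝ) : IsUD x ↔ Pool.Agent.H534R3.UDist.UD x := by
  constructor
  · intro h s t hs hst ht
    rcases hst.lt_or_eq with hlt | heq
    · exact h s t hs hlt ht
    · subst heq
      have : (fun N : ℕ =>
          (((Finset.range N).filter (fun n => s ≤ Int.fract (x n) ∧ Int.fract (x n) < s)).card : ℝ)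
            / (N : ℝ)) = fun _ => (0 : ℝ) := by
        funext N
        have he : (Finset.range N).filter
            (fun n => s ≤ Int.fract (x n) ∧ Int.fract (x n) < s) = ∅ := by
          apply Finset.filter_eq_empty_iff.2
          intro n _ hn
          exact absurd hn.2 (not_lt.2 hn.1)
        rw [he]
        simp
      rw [this, sub_self]
      exact tendsto_const_nhds
  · intro h u v hu huv hv
    exact h u v hu huv.le hv

/-- Adding integers does not change the uniform distribution. -/
theorem isUD_add_int (x : ℕ → ℝ) (c : ℕ → ℤ) : IsUD (fun n => x n + c n) ↔ IsUD x := by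
  unfold IsUD
  simp only [Int.fract_add_intCast]

/-- The zero sequence is not uniformly distributed. -/
theorem not_isUD_zero : ¬ IsUD (fun _ => (0 : ℝ)) := by
  intro h
  have h1 := h (1 / 2) 1 (by norm_num) (by norm_num) le_rfl
  have h2 : (fun N : ℕ =>
      (((Finset.range N).filter (fun _ => (1 / 2 : ℝ) ≤ Int.fract (0 : ℝ) ∧
        Int.fract (0 : ℝ) < 1)).card : ℝ) / (N : ℝ)) = fun _ => (0 : ℝ) := by
    funext N
    have he : (Finset.range N).filter
        (fun _ => (1 / 2 : ℝ) ≤ Int.fract (0 : ℝ) ∧ Int.fract (0 : ℝ) < 1) = ∅ := by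
      apply Finset.filter_eq_empty_iff.2
      intro n _ hn
      have := hn.1
      rw [Int.fract_zero] at this
      norm_num at this
    rw [he]
    simp
  rw [h2] at h1
  have h3 := tendsto_nhds_unique h1 tendsto_const_nhds
  norm_num at h3

/-- The polynomial `ξ` for `k = 0`, and `ξ + n ^ k` for `k > 0`. -/
noncomputable def emb (k : ℕ) (ξ : ℝ) : PolySpace k :=
  fun i => if (i : ℕ) = 0 then ξ else if (i : ℕ) = k then 1 else 0

theorem continuous_emb (k : ℕ) : Continuous (emb k) := by
  unfold emb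
  refine continuous_pi fun i => ?_
  split_ifs
  · exact continuous_id
  · exact continuous_const
  · exact continuous_const

theorem val_emb (k : ℕ) (ξ : ℝ) (n : ℕ) :
    val (emb k ξ) n = ξ + ((if k = 0 then 0 else (n : ℤ) ^ k : ℤ) : ℝ) := by
  unfold val emb
  rcases Nat.eq_zero_or_pos k with rfl | hk
  · simp
  · obtain ⟨m, rfl⟩ : ∃ m, k = m + 1 := ⟨k - 1, by omega⟩
    rw [Fin.sum_univ_succ, Fin.sum_univ_castSucc]
    have h0 : ∀ i : Fin m,
        (if ((Fin.succ (Fin.castSucc i) : Fin (m + 1 + 1)) : ℕ) = 0 then ξ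
          else if ((Fin.succ (Fin.castSucc i) : Fin (m + 1 + 1)) : ℕ) = m + 1 then (1 : ℝ) else 0)
          * (n : ℝ) ^ ((Fin.succ (Fin.castSucc i) : Fin (m + 1 + 1)) : ℕ) = 0 := by
      intro i
      have h1 : ((Fin.succ (Fin.castSucc i) : Fin (m + 1 + 1)) : ℕ) = (i : ℕ) + 1 := by simp
      rw [h1]
      have h2 : (i : ℕ) < m := i.2
      rw [if_neg (by omega), if_neg (by omega), zero_mul]
    rw [Finset.sum_eq_zero (fun i _ => h0 i)]
    simp

theorem emb_mem (a k : ℕ) (ξ : ℝ) :
    emb k ξ ∈ NormalVec a k ↔ IsUD (fun n => ξ * (a : ℝ) ^ n) := by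
  have h : (fun n => val (emb k ξ) n * (a : ℝ) ^ n) = fun n =>
      (fun n => ξ * (a : ℝ) ^ n) n +
        ((fun n : ℕ => ((if k = 0 then 0 else (n : ℤ) ^ k : ℤ)) * (a : ℤ) ^ n) n : ℤ) := by
    funext n
    rw [val_emb]
    push_cast
    ring
  show IsUD (fun n => val (emb k ξ) n * (a : ℝ) ^ n) ↔ _
  rw [h]
  exact isUD_add_int _ _

theorem emb_last (a k : ℕ) (ξ : ℝ) (h : emb k ξ ∈ NormalVec a k) :
    emb k ξ (Fin.last k) ≠ 0 := by
  rw [emb_mem] at h
  unfold emb
  simp only [Fin.val_last, if_true]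
  split_ifs with hk
  · rintro rfl
    simp only [zero_mul] at h
    exact not_isUD_zero h
  · exact one_ne_zero

theorem piThree_preimage {X Y : Type} [TopologicalSpace X] [TopologicalSpace Y] {f : X → Y}
    (hf : Continuous f) {A : Set Y} (hA : IsPiThree A) : IsPiThree (f ⁻¹' A) := by
  obtain ⟨F, hF, rfl⟩ := hA
  refine ⟨fun i j => f ⁻¹' F i j, fun i j => (hF i j).preimage hf, ?_⟩
  simp only [Set.preimage_iInter, Set.preimage_iUnion]

theorem piThree_inter {X : Type} [TopologicalSpace X] {A : Set X} (hA : IsPiThree A)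
    (C : ℕ → Set X) (hC : ∀ m, IsClosed (C m)) : IsPiThree (A ∩ ⋃ m, C m) := by
  obtain ⟨F, hF, rfl⟩ := hA
  refine ⟨fun i j => F i (Nat.unpair j).1 ∩ C (Nat.unpair j).2,
    fun i j => (hF _ _).inter (hC _), ?_⟩
  ext x
  simp only [Set.mem_inter_iff, Set.mem_iInter, Set.mem_iUnion]
  constructor
  · rintro ⟨h1, m, hm⟩ i
    obtain ⟨j, hj⟩ := h1 i
    exact ⟨Nat.pair j m, by simpa using ⟨hj, hm⟩⟩
  · intro h
    refine ⟨fun i => ?_, ?_⟩
    · obtain ⟨j, hj, _⟩ := h i
      exact ⟨_, hj⟩
    · obtain ⟨j, _, hj⟩ := h 0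
      exact ⟨_, hj⟩

theorem piThree_normalVec (a k : ℕ) : IsPiThree (NormalVec a k) := by
  obtain ⟨F, hF, hFe⟩ := Pool.Agent.H534R3.UDist.ud_piThree
    (fun (g : PolySpace k) (n : ℕ) => val g n * (a : ℝ) ^ n) (fun n => by
      unfold val
      fun_prop)
  refine ⟨F, hF, ?_⟩
  rw [← hFe]
  ext g
  exact isUD_iff _

/-- The set of the vectors with a nonzero last coefficient is a countable union of closed sets. -/
theorem last_ne (k : ℕ) : {g : PolySpace k | g (Fin.last k) ≠ 0} =
    ⋃ m : ℕ, {g : PolySpace k | 1 / ((m : ℝ) + 1) ≤ |g (Fin.last k)|} := by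
  ext g
  simp only [Set.mem_ofPred_eq, Set.mem_iUnion]
  constructor
  · intro h
    obtain ⟨m, hm⟩ := exists_nat_one_div_lt (abs_pos.2 h)
    exact ⟨m, hm.le⟩
  · rintro ⟨m, hm⟩ h
    rw [h, abs_zero] at hm
    have : (0 : ℝ) < 1 / ((m : ℝ) + 1) := by positivity
    linarith

/-- The common hardness proof. -/
theorem hard (a b : ℕ) (ha : 1 < a) (hb : 1 < b)
    (hab : ∀ m n : ℕ, 0 < m → 0 < n → a ^ m ≠ b ^ n) (k : ℕ) (D : Set (PolySpace k))
    (hD : ∀ ξ : ℝ, emb k ξ ∈ D ↔ emb k ξ ∈ NormalVec a k \ NormalVec b k) : ¬ IsDTwo Dᶜ := by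
  rintro ⟨A, B, hA, hB, hAB⟩
  obtain ⟨g, hg, hga, hgb⟩ := Pool.Agent.H534R3.Rota.reduce_pair a b ha hb hab
  have hc : Continuous fun w => emb k (g w) := (continuous_emb k).comp hg
  obtain ⟨F, hF, hFe⟩ := piThree_preimage hc hA
  obtain ⟨F', hF', hFe'⟩ := piThree_preimage hc hB
  refine Pool.Agent.H534R3.Rota.no_dual
    (fun w t => ∀ e, ∃ J, ∀ j, J ≤ j → Pool.Agent.H534R3.Rota.ty j = t → e ≤ w j)
    (fun w t => Iff.rfl) F F' hF hF' ?_
  rw [← hFe, ← hFe', ← Set.preimage_sdiff, ← hAB, Set.preimage_compl]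
  congr 1
  ext w
  rw [Set.mem_preimage, hD, Set.mem_sdiff, emb_mem, emb_mem, isUD_iff, isUD_iff]
  exact (and_congr (hga w) (not_congr (hgb w))).symm

theorem result (a b : ℕ) (ha : 1 < a) (hb : 1 < b)
    (hab : ∀ m n : ℕ, 0 < m → 0 < n → a ^ m ≠ b ^ n) (k : ℕ) :
    IsDTwoComplete (NormalVec a k \ NormalVec b k) ∧
      IsDTwoComplete ((NormalVec a k \ NormalVec b k) ∩ {g | g (Fin.last k) ≠ 0}) := by
  refine ⟨⟨⟨_, _, piThree_normalVec a k, piThree_normalVec b k, rfl⟩, ?_⟩, ?_, ?_⟩
  · exact hard a b ha hb hab k _ fun ξ => Iff.rfl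
  · refine ⟨NormalVec a k ∩ {g | g (Fin.last k) ≠ 0}, NormalVec b k, ?_,
      piThree_normalVec b k, ?_⟩
    · rw [last_ne]
      refine piThree_inter (piThree_normalVec a k) _ fun m => ?_
      exact isClosed_le continuous_const (by fun_prop)
    · ext g
      simp only [Set.mem_inter_iff, Set.mem_sdiff]
      tauto
  · refine hard a b ha hb hab k _ fun ξ => ⟨fun h => h.1, fun h => ⟨h, ?_⟩⟩
    exact emb_last a k ξ h.1

end Pool.Agent.Results.MP_df8ac3_lc.AllDegrees
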